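import Pool.Agent.MP_22fc46_co.Fo.Core
import Pool.Agent.MP_22fc46_co.Fo.PA

set_option autoImplicit false

open Pool.Agent.MP_22fc46_co.Fo in
/-- A cyclically 4-edge-connected cubic graph with a Hist that has at most four outer cycles has a
cycle double cover that contains all outer cycles. -/
theorem Pool.Agent.Results.MP_22fc46_co.FourOuter.result {V : Type} [Fintype V]
    (G T : SimpleGraph V) (hG : ∀ v, (G.neighborSet v).ncard = 3) (hTG : T ≤ G) (hT : T.IsTree)
    (hd : ∀ v, (T.neighborSet v).ncard = 1 ∨ (T.neighborSet v).ncard = 3)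
    (h4 : ∀ D : Set (Sym2 V), D.ncard ≤ 3 → ∀ H H' : G.Subgraph,
      (H.Connected ∧ ∀ v ∈ H.verts, (H.neighborSet v).ncard = 2) →
      (H'.Connected ∧ ∀ v ∈ H'.verts, (H'.neighborSet v).ncard = 2) →
      Disjoint H.edgeSet D → Disjoint H'.edgeSet D →
      ∀ a ∈ H.verts, ∀ b ∈ H'.verts, (G.deleteEdges D).Reachable a b)
    (hk : {H : G.Subgraph | (H.Connected ∧ ∀ v ∈ H.verts, (H.neighborSet v).ncard = 2) ∧
      ∀ v ∈ H.verts, (T.neighborSet v).ncard = 1}.ncard ≤ 4) :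
    ∃ (m : ℕ) (c : Fin m → G.Subgraph),
      (∀ i, (c i).Connected ∧ ∀ v ∈ (c i).verts, ((c i).neighborSet v).ncard = 2) ∧
      (∀ e ∈ G.edgeSet, {i | e ∈ (c i).edgeSet}.ncard = 2) ∧
      ∀ H : G.Subgraph, (H.Connected ∧ ∀ v ∈ H.verts, (H.neighborSet v).ncard = 2) →
        (∀ v ∈ H.verts, (T.neighborSet v).ncard = 1) → ∃ i, c i = H := by
  have c3 := sDown 3 core4
  have c2 := sDown 2 c3
  have c1 := sDown 1 c2
  have c0 := sDown 0 c1
  have c : ∀ n, n ≤ 4 → Core n := fun n hn => by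
    interval_cases n
    exacts [c0, c1, c2, c3, core4]
  exact sMain (fun n hn => sTree n (c n hn) sEx sFlow sCut) sLab sEx V G T hG hTG hT hd h4 hk
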