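import Pool.Agent.Mg.F22fc46.Gee751e

namespace Pool.Agent.Results.MP_22fc46_co.FrameExt

theorem result {V : Type} [Fintype V] (G T : SimpleGraph V)
    (hG : ∀ v, (G.neighborSet v).ncard = 3) (hTG : T ≤ G)
    (hT : ∀ v, (T.neighborSet v).ncard = 1 ∨ (T.neighborSet v).ncard = 3)
    (r : ℕ) (W : Fin r → SimpleGraph V) (hWG : ∀ i, W i ≤ G)
    (hWe : ∀ i v, Even ((W i).neighborSet v).ncard)
    (hC : ∀ u v, G.Adj u v → ¬ T.Adj u v → {i | (W i).Adj u v}.ncard = 1)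
    (hY : ∀ u v, T.Adj u v → {i | (W i).Adj u v}.ncard = 0 ∨ {i | (W i).Adj u v}.ncard = 2)
    (hK : ∀ K : (T \ ⨆ i, W i).ConnectedComponent,
      ∃ (i : Fin r) (g : Sym2 V → ZMod 2 × ZMod 2),
        (∀ u v, u ∈ K.supp → (T \ ⨆ i, W i).Adj u v → g s(u, v) ≠ 0) ∧
        ∀ Q : (W i).ConnectedComponent,
          ∑ᶠ p ∈ {p : V × V | p.1 ∈ K.supp ∧ (T \ ⨆ i, W i).Adj p.1 p.2 ∧
            p.1 ∈ Q.supp ∧ p.2 ∉ Q.supp}, g s(p.1, p.2) = 0) :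
    ∃ (m : ℕ) (c : Fin m → G.Subgraph),
      (∀ i, (c i).Connected ∧ ∀ v ∈ (c i).verts, ((c i).neighborSet v).ncard = 2) ∧
      (∀ e ∈ G.edgeSet, {i | e ∈ (c i).edgeSet}.ncard = 2) ∧
      ∀ H : G.Subgraph, H.Connected → (∀ v ∈ H.verts, (H.neighborSet v).ncard = 2) →
        (∀ u v, H.Adj u v → ¬ T.Adj u v) → ∃ i, c i = H := by
  obtain ⟨E, h1, h2, h3⟩ := Pool.Agent.MP_22fc46_co.frame_even hG hTG W hWG hWe hC hY
    (T \ ⨆ i, W i) (fun u v => by simp [SimpleGraph.iSup_adj]) hK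
  exact Pool.Agent.MP_22fc46_co.cdc_of_cover hG hTG hT E h1 h2 h3

end Pool.Agent.Results.MP_22fc46_co.FrameExt
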